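import Pool.Agent.H64.EK.Targets

/-! Board ekm (MP_fd35e1_ag), row EX1: the tensor on `R ⊗ K²`. -/

set_option autoImplicit false

open Matrix Pool.Agent.H64.CC Pool.Agent.H2.NL Pool.Agent.H2.KM Pool.Agent.H64.EV Pool.Agent.H64.EK

namespace Pool.Agent.H42.EK

section

variable {K : Type} [Field K] {I : Type}

theorem ex_map {α β : Type} (f : α → β) : ∀ (j : ℕ) (w : List α), (ex j w).map f = ex j (w.map f)
  | 0, a :: b :: l => rfl
  | 0, [a] => rfl
  | 0, [] => rfl
  | j + 1, a :: l => by simp [ex, ex_map f j l]
  | _ + 1, [] => rfl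

theorem sgx_map {J : Type} (o : J → Bool) (o' : I → Bool) (f : I → J) (h : ∀ a, o' a = o (f a)) :
    ∀ (j : ℕ) (w : List I), sgx K o' j w = sgx K o j (w.map f)
  | 0, a :: b :: l => by
    show ks K (o' a) (o' b) = ks K (o (f a)) (o (f b))
    rw [h, h]
  | 0, [a] => rfl
  | 0, [] => rfl
  | j + 1, a :: l => sgx_map o o' f h j l
  | _ + 1, [] => rfl

theorem sg_sq (p : Bool) : sg K p * sg K p = 1 := by
  unfold sg; split_ifs <;> simp

theorem twl_sq (o : I → Bool) : ∀ (w : List I) (i : ℕ), twl K o i w * twl K o i w = 1
  | [], i => one_mul _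
  | a :: w, i => by
    have h := twl_sq o w (i + 1)
    have h' : sg K (o a) ^ i * sg K (o a) ^ i = 1 := by rw [← mul_pow, sg_sq, one_pow]
    show sg K (o a) ^ i * twl K o (i + 1) w * (sg K (o a) ^ i * twl K o (i + 1) w) = 1
    calc _ = (sg K (o a) ^ i * sg K (o a) ^ i) * (twl K o (i + 1) w * twl K o (i + 1) w) := by ring
      _ = 1 := by rw [h, h', one_mul]

variable (F : OForm K I)

theorem kap_ne : ∀ W : List (I × Bool), kap F W ≠ 0
  | [] => one_ne_zero
  | a :: W => by
    show (if a.2 = true then 1 else F.c (F.st a.1)) * kap F W ≠ 0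
    refine mul_ne_zero ?_ (kap_ne W)
    split_ifs
    · exact one_ne_zero
    · exact F.c_ne _

theorem kap_ex : ∀ (j : ℕ) (W : List (I × Bool)), kap F (ex j W) = kap F W
  | 0, a :: b :: l => by
    show (if b.2 = true then 1 else F.c (F.st b.1)) *
      ((if a.2 = true then 1 else F.c (F.st a.1)) * kap F l) =
      (if a.2 = true then 1 else F.c (F.st a.1)) *
      ((if b.2 = true then 1 else F.c (F.st b.1)) * kap F l)
    ring
  | 0, [a] => rfl
  | 0, [] => rfl
  | j + 1, a :: l => by
    show (if a.2 = true then 1 else F.c (F.st a.1)) * kap F (ex j l) =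
      (if a.2 = true then 1 else F.c (F.st a.1)) * kap F l
    rw [kap_ex j l]
  | _ + 1, [] => rfl

theorem lw_eq : ∀ (W : List (I × Bool)) (i : ℕ),
    F.lw i W = twl K F.o i (W.map Prod.fst) * kap F W
  | [], i => (one_mul _).symm
  | a :: W, i => by
    show F.lam i a * F.lw (i + 1) W = sg K (F.o a.1) ^ i * twl K F.o (i + 1) (W.map Prod.fst) *
      ((if a.2 = true then 1 else F.c (F.st a.1)) * kap F W)
    rw [lw_eq W (i + 1)]
    unfold OForm.lam
    ring

end

theorem pf_EX1 (hGSW : T_GSW) : T_EX1 := by
  intro K _ _ I _ _ F A hA l x hx hM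
  constructor
  · intro σ hσ
    by_cases hc : σ.count true = σ.count false
    · have hl : σ.count true + σ.count false = 2 * l := by
        rw [← hσ]
        have h := List.length_eq_countP_add_countP (fun b : Bool => b == true) (l := σ)
        rw [h]
        congr 1
        rw [List.count]
        apply List.countP_congr
        intro b _
        cases b <;> simp
      have h1 : (σ.map not).count true = l := by
        have : (σ.map not).count true = σ.count false := by
          have h := List.count_map_of_injective σ not Bool.not_injective false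
          simpa using h
        omega
      have h2 : (σ.map not).count false = l := by
        have : (σ.map not).count false = σ.count true := by
          have h := List.count_map_of_injective σ not Bool.not_injective true
          simpa using h
        omega
      have h3 := hM (σ.map not) h1 h2
      refine hA.congr l _ _ h3 ?_
      intro w hw
      have hwσ : w.length = σ.length := by rw [hw, hσ]
      have e1 : (w.zip σ).map Prod.snd = σ := List.map_snd_zip (by omega)
      have e2 : (w.zip σ).map Prod.fst = w := List.map_fst_zip (by omega)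
      have e3 : (w.zip σ).map (fun a => !a.2) = σ.map not := by
        have : (w.zip σ).map (fun a => !a.2) = ((w.zip σ).map Prod.snd).map not := by
          rw [List.map_map]; rfl
        rw [this, e1]
      show (F.lw 0 (w.zip σ))⁻¹ * Xt F x (w.zip σ) = twl K F.o 0 w * Gp (fo F.o) (σ.map not) x w
      unfold Xt
      rw [e1, if_pos hc, e3, e2, lw_eq, e2]
      have hk := kap_ne F (w.zip σ)
      have ht := twl_sq (K := K) F.o w 0
      have ht0 : twl K F.o 0 w ≠ 0 := by
        intro h
        rw [h, zero_mul] at ht
        exact zero_ne_one ht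
      have ht' : (twl K F.o 0 w)⁻¹ = twl K F.o 0 w := inv_eq_of_mul_eq_one_right ht
      rw [mul_inv, ht']
      field_simp
    · refine hA.congr l _ _ (A l).zero_mem ?_
      intro w hw
      have hwσ : w.length = σ.length := by rw [hw, hσ]
      have e1 : (w.zip σ).map Prod.snd = σ := List.map_snd_zip (by omega)
      show (F.lw 0 (w.zip σ))⁻¹ * Xt F x (w.zip σ) = 0
      unfold Xt
      rw [e1, if_neg hc, mul_zero]
  · intro j _ W _
    rw [sw_eq]
    unfold Xt
    have hp := (ex_perm j W).map Prod.snd
    rw [hp.count_eq, hp.count_eq]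
    split_ifs with h
    · rw [kap_ex, ex_map, ex_map, sgx_map (fo F.o) F.tl.o Prod.fst (fun a => rfl)]
      have h1 := congrFun (hGSW K I (fo F.o) x hx (ex j (W.map fun a => !a.2)) j) (W.map Prod.fst)
      rw [sw_eq, ex_ex] at h1
      rw [← h1]
      ring
    · rw [mul_zero]

end Pool.Agent.H42.EK
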