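import Pool.Agent.H64.EK.Targets

/-! Board ekm (MP_fd35e1_ag), row EX2: the contraction of the tensor on `R ⊗ K²`. -/

set_option autoImplicit false

open Matrix Pool.Agent.H64.CC Pool.Agent.H2.NL Pool.Agent.H2.KM Pool.Agent.H64.EV Pool.Agent.H64.EK

namespace Pool.Agent.H42.EK.EX2

section

variable {K : Type} [Field K] {I : Type} {o : I → Bool} {x : List I → List I → K}

theorem gs_up (hx : GS o x) (j : ℕ) (u v : List I) : sgx K o j u * x (ex j u) v = x u v := by
  have h := hx.up j u v
  rwa [sw_eq] at h

theorem gs_lo (hx : GS o x) (j : ℕ) (u v : List I) : sgx K o j v * x u (ex j v) = x u v := by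
  have h := hx.lo j u v
  rwa [sw_eq] at h

theorem gp_sum {ι : Type} (S : Finset ι) (c : ι → K) : ∀ (s : List Bool)
    (f : ι → List I → List I → K) (w : List I),
    ∑ a ∈ S, c a * Gp o s (f a) w = Gp o s (fun u v => ∑ a ∈ S, c a * f a u v) w
  | [], f, [] => rfl
  | [], f, a :: w => Finset.sum_eq_zero fun a _ => mul_zero (c a)
  | true :: s, f, [] => Finset.sum_eq_zero fun a _ => mul_zero (c a)
  | false :: s, f, [] => Finset.sum_eq_zero fun a _ => mul_zero (c a)
  | true :: s, f, b :: w => gp_sum S c s (fun a u v => f a (b :: u) v) w
  | false :: s, f, b :: w => by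
    have h := gp_sum S c s (fun a u v => sgp K o b u * f a u (b :: v)) w
    change ∑ a ∈ S, c a * Gp o s (fun u v => sgp K o b u * f a u (b :: v)) w =
      Gp o s (fun u v => sgp K o b u * ∑ a ∈ S, c a * f a u (b :: v)) w
    rw [h]
    congr 1
    funext u v
    rw [Finset.mul_sum]
    exact Finset.sum_congr rfl fun a _ => by ring

end

theorem pf_EX2 : T_EX2 := by
  intro K _ I _ _ F x hx
  refine ⟨⟨?_, ?_⟩, ?_⟩
  · intro j u v
    rw [sw_eq]
    unfold oC
    rw [Finset.mul_sum]
    refine Finset.sum_congr rfl fun e _ => ?_
    have h : sgx K (fo F.o) j u * x (e :: ex j u) (F.st e :: v) = x (e :: u) (F.st e :: v) :=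
      gs_up hx (j + 1) (e :: u) (F.st e :: v)
    rw [← h, sgp_perm (fo F.o) (F.st e) (ex_perm j u)]
    ring
  · intro j u v
    rw [sw_eq]
    unfold oC
    rw [Finset.mul_sum]
    refine Finset.sum_congr rfl fun e _ => ?_
    have h : sgx K (fo F.o) j v * x (e :: u) (F.st e :: ex j v) = x (e :: u) (F.st e :: v) :=
      gs_lo hx (j + 1) (e :: u) (F.st e :: v)
    rw [← h]
    ring
  · funext W
    have e0 : con F.tl.η 0 (Xt F x) W = ∑ a : I × Bool, F.tl.c a * Xt F x (a :: F.tl.st a :: W) := by
      change ∑ a, ∑ b, F.tl.η a b * Xt F x (a :: b :: W) = _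
      refine Finset.sum_congr rfl fun a _ => ?_
      rw [Finset.sum_eq_single (F.tl.st a)]
      · change (if F.tl.st a = F.tl.st a then F.tl.c a else 0) * _ = _
        rw [if_pos rfl]
      · intro b _ hb
        change (if b = F.tl.st a then F.tl.c a else 0) * _ = _
        rw [if_neg hb, zero_mul]
      · intro hn
        exact (hn (Finset.mem_univ _)).elim
    rw [e0, Fintype.sum_prod_type]
    have e1 : ∀ a : I, ∑ s : Bool, F.tl.c (a, s) * Xt F x ((a, s) :: F.tl.st (a, s) :: W) =
        F.tl.c (a, true) * Xt F x ((a, true) :: (F.st a, false) :: W) +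
        F.tl.c (a, false) * Xt F x ((a, false) :: (F.st a, true) :: W) := by
      intro a
      rw [Fintype.sum_bool]
      rfl
    rw [Finset.sum_congr rfl fun a _ => e1 a, Finset.sum_add_distrib]
    show _ = (2 : K) * Xt F (oC F x) W
    by_cases hc : (W.map Prod.snd).count true = (W.map Prod.snd).count false
    · have ht : ∀ a : I, Xt F x ((a, true) :: (F.st a, false) :: W) = F.c a * (kap F W *
          Gp (fo F.o) (W.map fun a => !a.2) (fun u v => sgp K (fo F.o) a (F.st a :: u) *
            x (F.st a :: u) (a :: v)) (W.map Prod.fst)) := by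
        intro a
        unfold Xt
        rw [if_pos]
        · show (1 * (F.c (F.st (F.st a)) * kap F W)) * Gp (fo F.o) (W.map fun a => !a.2)
            (fun u v => sgp K (fo F.o) a (F.st a :: u) *
            x (F.st a :: u) (a :: v)) (W.map Prod.fst) = _
          rw [F.st_st]
          ring
        · simp only [List.map_cons, List.count_cons_self, Bool.true_eq_false, Bool.false_eq_true,
            not_false_eq_true, List.count_cons_of_ne, ne_eq]
          rw [hc]
      have hf : ∀ a : I, Xt F x ((a, false) :: (F.st a, true) :: W) = F.c (F.st a) * (kap F W *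
          Gp (fo F.o) (W.map fun a => !a.2) (fun u v => sgp K (fo F.o) (F.st a) u *
            x (a :: u) (F.st a :: v)) (W.map Prod.fst)) := by
        intro a
        unfold Xt
        rw [if_pos]
        · show (F.c (F.st a) * (1 * kap F W)) * Gp (fo F.o) (W.map fun a => !a.2)
            (fun u v => sgp K (fo F.o) (F.st a) u *
            x (a :: u) (F.st a :: v)) (W.map Prod.fst) = _
          ring
        · simp only [List.map_cons, List.count_cons_self, Bool.true_eq_false, Bool.false_eq_true,
            not_false_eq_true, List.count_cons_of_ne, ne_eq]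
          rw [hc]
      have hXt : Xt F (oC F x) W = kap F W * Gp (fo F.o) (W.map fun a => !a.2) (oC F x)
          (W.map Prod.fst) := by
        unfold Xt
        rw [if_pos hc]
      have hsum : ∑ a : I, F.c (F.st a) * Gp (fo F.o) (W.map fun a => !a.2)
          (fun u v => sgp K (fo F.o) (F.st a) u * x (a :: u) (F.st a :: v)) (W.map Prod.fst) =
          Gp (fo F.o) (W.map fun a => !a.2) (oC F x) (W.map Prod.fst) := by
        rw [gp_sum]
        congr 1
        funext u v
        unfold oC
        exact Finset.sum_congr rfl fun a _ => by ring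
      have hF : ∑ a : I, F.tl.c (a, false) * Xt F x ((a, false) :: (F.st a, true) :: W) =
          Xt F (oC F x) W := by
        rw [hXt, ← hsum, Finset.mul_sum]
        refine Finset.sum_congr rfl fun a _ => ?_
        rw [hf]
        have hc1 : F.tl.c (a, false) = 1 := by
          show (if F.o a = false ∧ false = true then (-1 : K) else 1) = 1
          rw [if_neg]
          rintro ⟨-, h⟩
          exact absurd h (by decide)
        rw [hc1]
        ring
      have hT : ∑ a : I, F.tl.c (a, true) * Xt F x ((a, true) :: (F.st a, false) :: W) =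
          Xt F (oC F x) W := by
        rw [← hF]
        have hinv : Function.Involutive F.st := F.st_st
        refine Fintype.sum_equiv hinv.toPerm _ _ fun a => ?_
        change F.tl.c (a, true) * Xt F x ((a, true) :: (F.st a, false) :: W) =
          F.tl.c (F.st a, false) * Xt F x ((F.st a, false) :: (F.st (F.st a), true) :: W)
        rw [ht, hf, F.st_st]
        have hc1 : F.tl.c (F.st a, false) = 1 := by
          show (if F.o (F.st a) = false ∧ false = true then (-1 : K) else 1) = 1
          rw [if_neg]
          rintro ⟨-, h⟩
          exact absurd h (by decide)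
        have hc2 : F.tl.c (a, true) = ks K (fo F.o a) (fo F.o (F.st a)) := by
          show (if F.o a = false ∧ true = true then (-1 : K) else 1) = ks K (!F.o a) (!F.o (F.st a))
          rw [F.o_st]
          unfold ks
          cases F.o a <;> simp
        have hks := ks_sq (K := K) (fo F.o a) (fo F.o (F.st a))
        have hg : Gp (fo F.o) (W.map fun a => !a.2) (fun u v => sgp K (fo F.o) a (F.st a :: u) *
            x (F.st a :: u) (a :: v)) (W.map Prod.fst) = ks K (fo F.o a) (fo F.o (F.st a)) *
            Gp (fo F.o) (W.map fun a => !a.2) (fun u v => sgp K (fo F.o) a u *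
            x (F.st a :: u) (a :: v)) (W.map Prod.fst) := by
          have h := gp_sum (o := fo F.o) ({()} : Finset Unit)
            (fun _ => ks K (fo F.o a) (fo F.o (F.st a))) (W.map fun a => !a.2)
            (fun _ u v => sgp K (fo F.o) a u * x (F.st a :: u) (a :: v)) (W.map Prod.fst)
          simp only [Finset.sum_singleton] at h
          rw [h]
          congr 1
          funext u v
          rw [sgp_cons]
          ring
        rw [hg, hc1, hc2]
        linear_combination (F.c a * (kap F W * Gp (fo F.o) (W.map fun a => !a.2)
          (fun u v => sgp K (fo F.o) a u * x (F.st a :: u) (a :: v)) (W.map Prod.fst))) * hks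
      rw [hF, hT]
      ring
    · have hz : ∀ (y : List I → List I → K) (a b : I) (s : Bool), Xt F y ((a, s) :: (b, !s) :: W) = 0 := by
        intro y a b s
        unfold Xt
        rw [if_neg]
        intro h
        apply hc
        cases s <;> simp at h <;> exact h
      have h0 : Xt F (oC F x) W = 0 := by
        unfold Xt
        rw [if_neg hc]
      rw [h0, mul_zero, Finset.sum_eq_zero, Finset.sum_eq_zero, add_zero]
      · intro a _
        rw [show ((a, false) :: (F.st a, true) :: W) = ((a, false) :: (F.st a, !false) :: W) from rfl,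
          hz, mul_zero]
      · intro a _
        rw [show ((a, true) :: (F.st a, false) :: W) = ((a, true) :: (F.st a, !true) :: W) from rfl,
          hz, mul_zero]

end Pool.Agent.H42.EK.EX2
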